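import Pool.Agent.Helper115.Small
import Pool.Agent.Helper115.LowerE

set_option autoImplicit false

namespace Pool.Agent.Results.MP_8f100c_ag.LeastDim

open MvPolynomial

/-- The hypersurface `V(F)` in projective `n`-space is smooth: at every point of `V(F)` some
partial derivative of `F` is nonzero. -/
def IsSmoothHypersurface {n : ℕ} (F : MvPolynomial (Fin (n + 1)) ℂ) : Prop :=
  ∀ x : Fin (n + 1) → ℂ, x ≠ 0 → eval x F = 0 → ∃ i, eval x (pderiv i F) ≠ 0

/-- The hypersurface `V(F)` in projective `n`-space is unirational: for some `m` there is a rational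
map from projective `m`-space to `V(F)`, given by forms `g_0, ..., g_n` of one degree `e` in `m + 1`
variables, not all zero, with `F(g_0, ..., g_n) = 0`, which is dominant: every form `h` that
vanishes on the image vanishes on all of `V(F)`. -/
def IsUnirationalHypersurface {n : ℕ} (F : MvPolynomial (Fin (n + 1)) ℂ) : Prop :=
  ∃ (m e : ℕ) (g : Fin (n + 1) → MvPolynomial (Fin (m + 1)) ℂ),
    (∀ i, (g i).IsHomogeneous e) ∧ (∃ i, g i ≠ 0) ∧ aeval g F = 0 ∧
    ∀ (k : ℕ) (h : MvPolynomial (Fin (n + 1)) ℂ), h.IsHomogeneous k → aeval g h = 0 →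
      ∀ x : Fin (n + 1) → ℂ, eval x F = 0 → eval x h = 0

/-- For every `d ≥ 1` the least `n` such that projective `n`-space contains a smooth unirational
hypersurface of degree `d` is `n = d`. -/
theorem result : ∀ d : ℕ, 1 ≤ d → IsLeast
    {n : ℕ | ∃ F : MvPolynomial (Fin (n + 1)) ℂ,
      F.IsHomogeneous d ∧ IsSmoothHypersurface F ∧ IsUnirationalHypersurface F} d := by
  intro d hd
  refine ⟨Pool.Agent.Helper115.Nd.upper d hd, ?_⟩
  rintro n ⟨F, hF, hsm, m, e, g, -, hg0, hgF, hdom⟩
  obtain ⟨D, rfl⟩ : ∃ D, d = D + 1 := ⟨d - 1, by omega⟩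
  exact Pool.Agent.Helper115.Nd.lower F hF hsm ⟨g, hg0, hgF, hdom⟩

end Pool.Agent.Results.MP_8f100c_ag.LeastDim
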